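import Mathlib

open scoped InnerProductSpace Matrix

namespace Pool.Agent.Lib.MP_862c25_an

/-- The algebra `M_4`. -/
abbrev M4 : Type := Matrix (Fin 4) (Fin 4) ℂ

/-- The unitary complex Hadamard matrix `u(z)`. -/
noncomputable def hadamard (z : ℂ) : M4 :=
  (1 / 2 : ℂ) • !![1, 1, 1, 1;
                   1, Complex.I * z, -1, -(Complex.I * z);
                   1, -1, 1, -1;
                   1, -(Complex.I * z), -1, Complex.I * z]

/-- The algebra `u Δ u*`, where `Δ` is the algebra of diagonal matrices (`Δ` itself for `u = 1`). -/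
def conjDiag (u : M4) : Set M4 := {x | ∃ d : Fin 4 → ℂ, x = u * Matrix.diagonal d * uᴴ}

section

variable {H : Type*} [NormedAddCommGroup H] [InnerProductSpace ℂ H] [CompleteSpace H]

/-- The tower `X_0, X_1, X_2 = ⟨X_1, e_0⟩, X_3 = ⟨X_2, e_1⟩, …` of star algebras of operators,
where `X_0`, `X_1` are the unital star algebras generated by `S₀`, `S₁`. -/
noncomputable def tower (S₀ S₁ : Set (H →L[ℂ] H)) (e : ℕ → (H →L[ℂ] H)) :
    ℕ → StarSubalgebra ℂ (H →L[ℂ] H)
  | 0 => StarAlgebra.adjoin ℂ S₀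
  | 1 => StarAlgebra.adjoin ℂ S₁
  | k + 2 => StarAlgebra.adjoin ℂ ((tower S₀ S₁ e (k + 1) : Set (H →L[ℂ] H)) ∪ {e k})

/-- The von Neumann algebra generated by a set of operators: the double commutant of the set
together with its adjoints. -/
noncomputable def vnGen (S : Set (H →L[ℂ] H)) : VonNeumannAlgebra H where
  toStarSubalgebra :=
    StarSubalgebra.centralizer ℂ (StarSubalgebra.centralizer ℂ S : Set (H →L[ℂ] H))
  centralizer_centralizer' := by
    change Set.centralizer (Set.centralizer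
      ((StarSubalgebra.centralizer ℂ (StarSubalgebra.centralizer ℂ S : Set (H →L[ℂ] H)) :
        StarSubalgebra ℂ (H →L[ℂ] H)) : Set (H →L[ℂ] H))) =
      ((StarSubalgebra.centralizer ℂ (StarSubalgebra.centralizer ℂ S : Set (H →L[ℂ] H)) :
        StarSubalgebra ℂ (H →L[ℂ] H)) : Set (H →L[ℂ] H))
    rw [StarSubalgebra.coe_centralizer_centralizer, Set.centralizer_centralizer_centralizer]

/-- The intersection of two von Neumann algebras. -/
noncomputable def vnInter (M N : VonNeumannAlgebra H) : VonNeumannAlgebra H where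
  toStarSubalgebra := M.toStarSubalgebra ⊓ N.toStarSubalgebra
  centralizer_centralizer' := by
    change Set.centralizer (Set.centralizer ((M : Set (H →L[ℂ] H)) ∩ N)) =
      (M : Set (H →L[ℂ] H)) ∩ N
    rw [← M.centralizer_centralizer, ← N.centralizer_centralizer, ← Set.centralizer_union,
      Set.centralizer_centralizer_centralizer]

/-- A von Neumann algebra is a factor if its center consists of the scalars. -/
def IsFactor (M : VonNeumannAlgebra H) : Prop :=
  ∀ x ∈ M, x ∈ M.commutant → ∃ c : ℂ, x = c • (1 : H →L[ℂ] H)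

end

/-- The Jones tower `A_0 ⊆ A_1 ⊆ A_2 ⊆ …` of iterated basic constructions of `Δ_4 ⊆ M_4`, in the
GNS representation of its Markov trace `τ(x) = ⟪Ω, x Ω⟫`. Here `A_0 = π(Δ_4)`, `A_1 = π(M_4)`,
`A_(k+2) = ⟨A_(k+1), e k⟩`, and `e k` is the Jones projection of `A_k ⊆ A_(k+1)`: it commutes with
`A_k`, satisfies `e x e = E(x) e` with `E : A_(k+1) → A_k` the trace preserving conditional
expectation, and `τ(x e) = τ(x) / 4` for `x ∈ A_(k+1)`. -/
structure JonesTower (H : Type*) [NormedAddCommGroup H] [InnerProductSpace ℂ H]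
    [CompleteSpace H] where
  π : M4 →⋆ₐ[ℂ] (H →L[ℂ] H)
  e : ℕ → (H →L[ℂ] H)
  Ω : H
  trace_π : ∀ a : M4, ⟪Ω, π a Ω⟫_ℂ = Matrix.trace a / 4
  tracial : ∀ k, ∀ x ∈ tower (π '' conjDiag 1) (Set.range π) e k,
    ∀ y ∈ tower (π '' conjDiag 1) (Set.range π) e k, ⟪Ω, (x * y) Ω⟫_ℂ = ⟪Ω, (y * x) Ω⟫_ℂ
  cyclic : Dense {ξ : H | ∃ k, ∃ x ∈ tower (π '' conjDiag 1) (Set.range π) e k, ξ = x Ω}
  proj : ∀ k, IsStarProjection (e k)
  comm : ∀ k, ∀ y ∈ tower (π '' conjDiag 1) (Set.range π) e k, e k * y = y * e k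
  jones : ∀ k, ∀ x ∈ tower (π '' conjDiag 1) (Set.range π) e (k + 1),
    ∃ y ∈ tower (π '' conjDiag 1) (Set.range π) e k,
      (∀ z ∈ tower (π '' conjDiag 1) (Set.range π) e k, ⟪Ω, (z * x) Ω⟫_ℂ = ⟪Ω, (z * y) Ω⟫_ℂ) ∧
        e k * x * e k = y * e k
  markov : ∀ k, ∀ x ∈ tower (π '' conjDiag 1) (Set.range π) e (k + 1),
    ⟪Ω, (x * e k) Ω⟫_ℂ = ⟪Ω, x Ω⟫_ℂ / 4

namespace JonesTower

variable {H : Type*} [NormedAddCommGroup H] [InnerProductSpace ℂ H] [CompleteSpace H]

/-- The hyperfinite factor `R` generated by the tower of `Δ_4 ⊆ M_4`. -/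
noncomputable def R (T : JonesTower H) : VonNeumannAlgebra H :=
  vnGen (⋃ k, (tower (T.π '' conjDiag 1) (Set.range T.π) T.e k : Set (H →L[ℂ] H)))

/-- The spin model subfactor `R_u`, generated by the tower
`ℂ ⊆ u Δ u* ⊆ ⟨u Δ u*, e 0⟩ ⊆ ⟨u Δ u*, e 0, e 1⟩ ⊆ …`. -/
noncomputable def spin (T : JonesTower H) (u : M4) : VonNeumannAlgebra H :=
  vnGen (⋃ k, (tower ∅ (T.π '' conjDiag u) T.e k : Set (H →L[ℂ] H)))

end JonesTower

end Pool.Agent.Lib.MP_862c25_an
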