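import Pool.Agent.Lib.MP_862c25_an.Defs

-- part Pool.Agent.Lib.MP_862c25_an.Core
section

open scoped InnerProductSpace Matrix

namespace Pool.Agent.Lib.MP_862c25_an

variable {H : Type*} [NormedAddCommGroup H] [InnerProductSpace ℂ H] [CompleteSpace H]

/-- evaluation at a vector -/
noncomputable def ev (Ω : H) : (H →L[ℂ] H) →ₗ[ℂ] H where
  toFun x := x Ω
  map_add' _ _ := rfl
  map_smul' _ _ := rfl

lemma inner_apply_apply (Ω : H) (a b : H →L[ℂ] H) :
    ⟪a Ω, b Ω⟫_ℂ = ⟪Ω, (star a * b) Ω⟫_ℂ := by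
  rw [mul_apply_eq_comp, ContinuousLinearMap.star_eq_adjoint,
    ContinuousLinearMap.adjoint_inner_right]

/-- A star algebra with a cyclic trace vector. -/
structure Tr (𝒜 : StarSubalgebra ℂ (H →L[ℂ] H)) (Ω : H) : Prop where
  tr : ∀ x ∈ 𝒜, ∀ y ∈ 𝒜, ⟪Ω, (x * y) Ω⟫_ℂ = ⟪Ω, (y * x) Ω⟫_ℂ
  dense : Dense {ξ : H | ∃ x ∈ 𝒜, ξ = x Ω}

namespace Tr

variable {𝒜 : StarSubalgebra ℂ (H →L[ℂ] H)} {Ω : H}

lemma norm_star (h : Tr 𝒜 Ω) {a : H →L[ℂ] H} (ha : a ∈ 𝒜) : ‖(star a) Ω‖ = ‖a Ω‖ := by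
  have h1 : ⟪(star a) Ω, (star a) Ω⟫_ℂ = ⟪a Ω, a Ω⟫_ℂ := by
    rw [inner_apply_apply, inner_apply_apply, star_star]
    exact h.tr _ ha _ (star_mem ha)
  rw [inner_self_eq_norm_sq_to_K, inner_self_eq_norm_sq_to_K] at h1
  have h2 : ‖(star a) Ω‖ ^ 2 = ‖a Ω‖ ^ 2 := by exact_mod_cast h1
  exact (sq_eq_sq₀ (norm_nonneg _) (norm_nonneg _)).1 h2

lemma exists_rho (h : Tr 𝒜 Ω) {y : H →L[ℂ] H} (hy : y ∈ 𝒜) :
    ∃ r : H →L[ℂ] H, ∀ a ∈ 𝒜, r (a Ω) = (a * y) Ω := by
  let e : 𝒜 →ₗ[ℂ] H := (ev Ω).comp (𝒜.toSubalgebra.toSubmodule.subtype)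
  let f : 𝒜 →ₗ[ℂ] H := (ev Ω).comp ((LinearMap.mulRight ℂ y).comp
    (𝒜.toSubalgebra.toSubmodule.subtype))
  have hd : DenseRange e := by
    refine h.dense.mono ?_
    rintro _ ⟨x, hx, rfl⟩
    exact ⟨⟨x, hx⟩, rfl⟩
  have hn : ∃ C, ∀ x, ‖f x‖ ≤ C * ‖e x‖ := by
    refine ⟨‖star y‖, fun x => ?_⟩
    change ‖(x.1 * y) Ω‖ ≤ ‖star y‖ * ‖x.1 Ω‖
    rw [← h.norm_star (mul_mem x.2 hy), star_mul, ← h.norm_star x.2,
      mul_apply_eq_comp]
    exact (star y).le_opNorm _
  refine ⟨f.extendOfNorm e, fun a ha => ?_⟩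
  exact LinearMap.extendOfNorm_eq hd hn ⟨a, ha⟩

lemma ind (h : Tr 𝒜 Ω) (p : H → Prop) (ξ : H) (h1 : ∀ η ∈ {ξ : H | ∃ x ∈ 𝒜, ξ = x Ω}, p η)
    (h2 : IsClosed {ξ | p ξ}) : p ξ :=
  closure_minimal (t := {ξ | p ξ}) h1 h2 (h.dense ξ)

lemma ext_dense (h : Tr 𝒜 Ω) {s t : H →L[ℂ] H} (hst : ∀ a ∈ 𝒜, s (a Ω) = t (a Ω)) : s = t := by
  ext ξ
  refine h.ind (fun ξ => s ξ = t ξ) ξ ?_ ?_
  · rintro _ ⟨a, ha, rfl⟩
    exact hst a ha
  · exact isClosed_eq s.continuous t.continuous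

lemma rho_comm (h : Tr 𝒜 Ω) {y r : H →L[ℂ] H} (hr : ∀ a ∈ 𝒜, r (a Ω) = (a * y) Ω)
    {x : H →L[ℂ] H} (hx : x ∈ vnGen (𝒜 : Set (H →L[ℂ] H))) : r * x = x * r := by
  have hmem : r ∈ StarSubalgebra.centralizer ℂ (𝒜 : Set (H →L[ℂ] H)) := by
    have key : ∀ g ∈ 𝒜, g * r = r * g := by
      intro g hg
      refine h.ext_dense fun a ha => ?_
      have h1 := hr _ (mul_mem hg ha)
      simp only [mul_apply_eq_comp] at h1 ⊢
      rw [h1, hr a ha]
      rfl
    rw [StarSubalgebra.mem_centralizer_iff]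
    intro g hg
    exact ⟨key g hg, key _ (star_mem hg)⟩
  have hx' : x ∈ StarSubalgebra.centralizer ℂ
      (StarSubalgebra.centralizer ℂ (𝒜 : Set (H →L[ℂ] H)) : Set (H →L[ℂ] H)) := hx
  rw [StarSubalgebra.mem_centralizer_iff] at hx'
  exact (hx' r hmem).1

lemma separating (h : Tr 𝒜 Ω) {x : H →L[ℂ] H} (hx : x ∈ vnGen (𝒜 : Set (H →L[ℂ] H)))
    (h0 : x Ω = 0) : x = 0 := by
  refine h.ext_dense fun a ha => ?_
  obtain ⟨r, hr⟩ := h.exists_rho ha
  have h1 : r Ω = a Ω := by simpa using hr 1 (one_mem _)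
  have h2 := congrArg (fun t : H →L[ℂ] H => t Ω) (h.rho_comm hr hx)
  simp only [mul_apply_eq_comp, h0, map_zero, h1] at h2
  simp [← h2]

/-- Conjugation by a self-adjoint unitary `σ` of the algebra as an isometry of `H` which fixes
`x Ω` when `x` is in the generated von Neumann algebra and commutes with `σ`. -/
lemma exists_conj (h : Tr 𝒜 Ω) {σ : H →L[ℂ] H} (hσ : σ ∈ 𝒜) (hs : star σ = σ) (h2 : σ * σ = 1) :
    ∃ U : H →L[ℂ] H, (∀ a ∈ 𝒜, U (a Ω) = (σ * a * σ) Ω) ∧ (∀ ξ η, ⟪U ξ, U η⟫_ℂ = ⟪ξ, η⟫_ℂ) ∧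
      ∀ x ∈ vnGen (𝒜 : Set (H →L[ℂ] H)), σ * x = x * σ → U (x Ω) = x Ω := by
  obtain ⟨r, hr⟩ := h.exists_rho hσ
  have hU : ∀ a ∈ 𝒜, (σ * r) (a Ω) = (σ * a * σ) Ω := by
    intro a ha
    rw [mul_apply_eq_comp, hr a ha, mul_assoc]
    rfl
  refine ⟨σ * r, hU, ?_, ?_⟩
  · intro ξ η
    refine h.ind (fun ξ => ⟪(σ * r) ξ, (σ * r) η⟫_ℂ = ⟪ξ, η⟫_ℂ) ξ ?_ ?_
    · rintro _ ⟨a, ha, rfl⟩
      refine h.ind
        (fun η => ⟪(σ * r) (a Ω), (σ * r) η⟫_ℂ = ⟪a Ω, η⟫_ℂ) η ?_ ?_
      · rintro _ ⟨b, hb, rfl⟩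
        rw [hU a ha, hU b hb, inner_apply_apply, inner_apply_apply]
        have e1 : star (σ * a * σ) * (σ * b * σ) = σ * (star a * b * σ) := by
          rw [star_mul, star_mul, hs]
          calc σ * (star a * σ) * (σ * b * σ) = σ * (star a * (σ * σ) * b * σ) := by
                noncomm_ring
            _ = _ := by rw [h2, mul_one]
        rw [e1, h.tr _ hσ _ (mul_mem (mul_mem (star_mem ha) hb) hσ), mul_assoc, h2, mul_one]
      · exact isClosed_eq (by fun_prop) (by fun_prop)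
    · exact isClosed_eq (by fun_prop) (by fun_prop)
  · intro x hx hc
    have h1 : r Ω = σ Ω := by simpa using hr 1 (one_mem _)
    have h3 := congrArg (fun t : H →L[ℂ] H => t Ω) (h.rho_comm hr hx)
    simp only [mul_apply_eq_comp, h1] at h3
    rw [mul_apply_eq_comp, h3]
    have h4 : σ * (x * σ) = x := by rw [← mul_assoc, hc, mul_assoc, h2, mul_one]
    exact congrArg (fun t : H →L[ℂ] H => t Ω) h4

/-- One step of the tower: conjugation by `1 - 2 e` moves `A₁ ⊖ A₀` into `A₂ ⊖ A₁`. -/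
lemma step (h : Tr 𝒜 Ω) {A₀ A₁ A₂ : StarSubalgebra ℂ (H →L[ℂ] H)} (h01 : A₀ ≤ A₁) (h12 : A₁ ≤ A₂)
    (h2 : A₂ ≤ 𝒜) {e : H →L[ℂ] H} (he : e ∈ A₂) (hp : IsStarProjection e)
    (hj : ∀ x ∈ A₁, ∃ y ∈ A₀, e * x * e = y * e)
    (hm : ∀ x ∈ A₁, ⟪Ω, (x * e) Ω⟫_ℂ = ⟪Ω, x Ω⟫_ℂ / 4)
    {x : H →L[ℂ] H} (hx : x ∈ vnGen (𝒜 : Set (H →L[ℂ] H))) (hc : e * x = x * e)
    {p₀ p₁ p₂ : H}
    (hp₀ : p₀ ∈ (A₀.toSubalgebra.toSubmodule.map (ev Ω)).topologicalClosure)
    (hp₁ : p₁ ∈ (A₁.toSubalgebra.toSubmodule.map (ev Ω)).topologicalClosure)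
    (hq₀ : x Ω - p₀ ∈ ((A₀.toSubalgebra.toSubmodule.map (ev Ω)).topologicalClosure)ᗮ)
    (hq₁ : x Ω - p₁ ∈ ((A₁.toSubalgebra.toSubmodule.map (ev Ω)).topologicalClosure)ᗮ)
    (hq₂ : x Ω - p₂ ∈ ((A₂.toSubalgebra.toSubmodule.map (ev Ω)).topologicalClosure)ᗮ) :
    ‖p₁ - p₀‖ ≤ ‖p₂ - p₁‖ := by
  set S₀ := A₀.toSubalgebra.toSubmodule.map (ev Ω) with hS₀
  set S₁ := A₁.toSubalgebra.toSubmodule.map (ev Ω) with hS₁
  set S₂ := A₂.toSubalgebra.toSubmodule.map (ev Ω) with hS₂
  have hee : e * e = e := hp.isIdempotentElem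
  have hes : star e = e := hp.isSelfAdjoint
  set σ : H →L[ℂ] H := 1 - (2 : ℂ) • e with hσ
  have hσ2 : σ ∈ A₂ := sub_mem (one_mem _) (SMulMemClass.smul_mem _ he)
  have hσs : star σ = σ := by simp [hσ, hes]
  have hσσ : σ * σ = 1 := by
    simp only [hσ, sub_mul, mul_sub, one_mul, mul_one, smul_mul_assoc, mul_smul_comm, hee]
    module
  obtain ⟨U, hU, hUi, hUx⟩ := h.exists_conj (h2 hσ2) hσs hσσ
  have hfix : U (x Ω) = x Ω := hUx x hx (by
    simp only [hσ, sub_mul, mul_sub, one_mul, mul_one, smul_mul_assoc, mul_smul_comm, hc])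
  have hle01 : S₀.topologicalClosure ≤ S₁.topologicalClosure :=
    Submodule.topologicalClosure_mono (Submodule.map_mono h01)
  set η := p₁ - p₀ with hη
  have hη1 : η ∈ S₁.topologicalClosure := sub_mem hp₁ (hle01 hp₀)
  have hη0 : η ∈ (S₀.topologicalClosure)ᗮ := by
    have : η = (x Ω - p₀) - (x Ω - p₁) := by rw [hη]; abel
    rw [this]
    exact sub_mem hq₀ (Submodule.orthogonal_le hle01 hq₁)
  have hU2 : U η ∈ S₂.topologicalClosure := by
    refine map_mem_closure U.continuous hη1 ?_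
    rintro _ ⟨a, ha, rfl⟩
    have ha' : a ∈ A₁ := ha
    change U (a Ω) ∈ S₂
    rw [hU a (h2 (h12 ha'))]
    have hm2 : σ * a * σ ∈ A₂ := mul_mem (mul_mem hσ2 (h12 ha')) hσ2
    exact ⟨σ * a * σ, hm2, rfl⟩
  have hU1 : U η ∈ (S₁.topologicalClosure)ᗮ := by
    rw [Submodule.orthogonal_closure, Submodule.mem_orthogonal]
    rintro _ ⟨z, hz, rfl⟩
    have hz' : z ∈ A₁ := hz
    obtain ⟨w, hw, hw'⟩ := hj (star z) (star_mem hz')
    have key : ∀ ζ ∈ S₁.topologicalClosure, ⟪z Ω, U ζ⟫_ℂ = ⟪(star w) Ω, ζ⟫_ℂ := by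
      intro ζ hζ
      refine closure_minimal (t := {ζ | ⟪z Ω, U ζ⟫_ℂ = ⟪(star w) Ω, ζ⟫_ℂ}) ?_
        (isClosed_eq (by fun_prop) (by fun_prop)) hζ
      rintro _ ⟨y, hy, rfl⟩
      have hy' : y ∈ A₁ := hy
      change ⟪z Ω, U (y Ω)⟫_ℂ = ⟪(star w) Ω, y Ω⟫_ℂ
      have m1 : ∀ {a}, a ∈ A₁ → a ∈ 𝒜 := fun ha => h2 (h12 ha)
      have hzs : star z ∈ A₁ := star_mem hz'
      rw [hU y (m1 hy'), inner_apply_apply, inner_apply_apply, star_star]
      have e1 : star z * (σ * y * σ) = star z * y - (2 : ℂ) • ((star z * e) * y)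
          - (2 : ℂ) • (star z * y * e) + (4 : ℂ) • ((star z * e * y) * e) := by
        simp only [hσ, sub_mul, mul_sub, one_mul, mul_one, smul_mul_assoc, mul_smul_comm,
          mul_assoc]
        module
      have t1 : ⟪Ω, ((star z * e) * y) Ω⟫_ℂ = ⟪Ω, (star z * y) Ω⟫_ℂ / 4 := by
        rw [h.tr _ (mul_mem (m1 hzs) (h2 he)) _ (m1 hy'), ← mul_assoc, hm _ (mul_mem hy' hzs),
          h.tr _ (m1 hy') _ (m1 hzs)]
      have t2 := hm _ (mul_mem hzs hy')
      have t3 : ⟪Ω, ((star z * e * y) * e) Ω⟫_ℂ = ⟪Ω, (w * y) Ω⟫_ℂ / 4 := by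
        rw [h.tr _ (mul_mem (mul_mem (m1 hzs) (h2 he)) (m1 hy')) _ (h2 he)]
        have : e * (star z * e * y) = (w * e) * y := by rw [← hw']; noncomm_ring
        rw [this, h.tr _ (mul_mem (m1 (h01 hw)) (h2 he)) _ (m1 hy'), ← mul_assoc,
          hm _ (mul_mem hy' (h01 hw)), h.tr _ (m1 hy') _ (m1 (h01 hw))]
      rw [e1]
      simp only [add_apply, sub_apply, smul_apply, inner_add_right, inner_sub_right, inner_smul_right]
      rw [t1, t2, t3]
      ring
    change ⟪z Ω, U η⟫_ℂ = 0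
    rw [key η hη1]
    have hsw : star w ∈ A₀ := star_mem hw
    exact (Submodule.mem_orthogonal _ _).1 hη0 _
      (S₀.le_topologicalClosure ⟨star w, hsw, rfl⟩)
  have a1 : ⟪x Ω, η⟫_ℂ = ⟪η, η⟫_ℂ := by
    have : x Ω = (x Ω - p₁) + η + p₀ := by rw [hη]; abel
    rw [this, inner_add_left, inner_add_left,
      (Submodule.mem_orthogonal' _ _).1 hq₁ _ hη1, (Submodule.mem_orthogonal _ _).1 hη0 _ hp₀]
    ring
  have a2 : ⟪x Ω, U η⟫_ℂ = ⟪p₂ - p₁, U η⟫_ℂ := by
    have : x Ω = (x Ω - p₂) + (p₂ - p₁) + p₁ := by abel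
    rw [this, inner_add_left, inner_add_left,
      (Submodule.mem_orthogonal' _ _).1 hq₂ _ hU2, (Submodule.mem_orthogonal _ _).1 hU1 _ hp₁]
    ring
  have a3 : ⟪η, η⟫_ℂ = ⟪p₂ - p₁, U η⟫_ℂ := by
    rw [← a1, ← a2, ← hUi, hfix]
  have a4 : ‖U η‖ = ‖η‖ := by
    have h1 := hUi η η
    rw [inner_self_eq_norm_sq_to_K, inner_self_eq_norm_sq_to_K] at h1
    have h2 : ‖U η‖ ^ 2 = ‖η‖ ^ 2 := by exact_mod_cast h1
    exact (sq_eq_sq₀ (norm_nonneg _) (norm_nonneg _)).1 h2
  have a5 : ‖η‖ * ‖η‖ ≤ ‖p₂ - p₁‖ * ‖η‖ := by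
    have := norm_inner_le_norm (𝕜 := ℂ) (p₂ - p₁) (U η)
    rw [← a3, a4, inner_self_eq_norm_sq_to_K] at this
    simpa [sq] using this
  rcases (norm_nonneg η).eq_or_lt with h0 | h0
  · rw [← h0]; exact norm_nonneg _
  · exact le_of_mul_le_mul_right a5 h0

/-- The commutant of the Jones projections of an index four tower starting at the scalars. -/
theorem scalar_of_commute (h : Tr 𝒜 Ω) (hΩ : ⟪Ω, Ω⟫_ℂ = 1) (A : ℕ → StarSubalgebra ℂ (H →L[ℂ] H))
    (e : ℕ → (H →L[ℂ] H)) (h0 : ∀ y ∈ A 0, ∃ c : ℂ, y = c • 1) (hmono : ∀ k, A k ≤ A (k + 1))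
    (hA : ∀ k, A k ≤ 𝒜) (hcov : ∀ y ∈ 𝒜, ∃ k, y ∈ A k) (he : ∀ k, e k ∈ A (k + 2))
    (hp : ∀ k, IsStarProjection (e k))
    (hj : ∀ k, ∀ x ∈ A (k + 1), ∃ y ∈ A k, e k * x * e k = y * e k)
    (hm : ∀ k, ∀ x ∈ A (k + 1), ⟪Ω, (x * e k) Ω⟫_ℂ = ⟪Ω, x Ω⟫_ℂ / 4)
    {x : H →L[ℂ] H} (hx : x ∈ vnGen (𝒜 : Set (H →L[ℂ] H))) (hc : ∀ k, e k * x = x * e k) :
    ∃ c : ℂ, x = c • 1 := by
  refine ⟨⟪Ω, x Ω⟫_ℂ, ?_⟩
  set x' : H →L[ℂ] H := x - ⟪Ω, x Ω⟫_ℂ • 1 with hx'
  have hx'm : x' ∈ vnGen (𝒜 : Set (H →L[ℂ] H)) :=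
    sub_mem hx ((vnGen (𝒜 : Set (H →L[ℂ] H))).toStarSubalgebra.smul_mem (one_mem _) _)
  have hc' : ∀ k, e k * x' = x' * e k := by
    intro k
    simp only [hx', mul_sub, sub_mul, hc k, mul_smul_comm, smul_mul_assoc, mul_one, one_mul]
  have horth : ⟪Ω, x' Ω⟫_ℂ = 0 := by
    change ⟪Ω, x Ω - ⟪Ω, x Ω⟫_ℂ • Ω⟫_ℂ = 0
    rw [inner_sub_right, inner_smul_right, hΩ, mul_one, sub_self]
  suffices hz : x' Ω = 0 from sub_eq_zero.1 (h.separating hx'm hz)
  set ξ := x' Ω with hξ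
  let K : ℕ → Submodule ℂ H := fun k =>
    ((A k).toSubalgebra.toSubmodule.map (ev Ω)).topologicalClosure
  have hex : ∀ k, ∃ p ∈ K k, ξ - p ∈ (K k)ᗮ := fun k =>
    Submodule.HasOrthogonalProjection.exists_orthogonal ξ
  choose p hpK hq using hex
  have hKm : ∀ k, K k ≤ K (k + 1) := fun k =>
    Submodule.topologicalClosure_mono (Submodule.map_mono (hmono k))
  have hstep : ∀ k, ‖p (k + 1) - p k‖ ≤ ‖p (k + 2) - p (k + 1)‖ := fun k =>
    h.step (hmono k) (hmono (k + 1)) (hA (k + 2)) (he k) (hp k) (hj k) (hm k) hx'm (hc' k)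
      (hpK k) (hpK (k + 1)) (hq k) (hq (k + 1)) (hq (k + 2))
  have hpy : ∀ k, ‖ξ - p k‖ ^ 2 = ‖ξ - p (k + 1)‖ ^ 2 + ‖p (k + 1) - p k‖ ^ 2 := by
    intro k
    have h1 : ξ - p k = (ξ - p (k + 1)) + (p (k + 1) - p k) := by abel
    have h2 : ⟪ξ - p (k + 1), p (k + 1) - p k⟫_ℂ = 0 :=
      (Submodule.mem_orthogonal' _ _).1 (hq (k + 1)) _ (sub_mem (hpK _) (hKm k (hpK k)))
    rw [h1, sq, sq, sq]
    exact norm_add_sq_eq_norm_sq_add_norm_sq_of_inner_eq_zero _ _ h2
  have hmon : Monotone fun k => ‖p (k + 1) - p k‖ := monotone_nat_of_le_succ hstep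
  have hzero : ∀ j, p (j + 1) = p j := by
    intro j
    have hb : ∀ m : ℕ, (m : ℝ) * ‖p (j + 1) - p j‖ ^ 2 + ‖ξ - p (j + m)‖ ^ 2 ≤ ‖ξ - p j‖ ^ 2 := by
      intro m
      induction m with
      | zero => simp
      | succ m ih =>
        have h1 := hpy (j + m)
        have h2 : ‖p (j + 1) - p j‖ ≤ ‖p (j + m + 1) - p (j + m)‖ := hmon (Nat.le_add_right j m)
        have h3 : ‖p (j + 1) - p j‖ ^ 2 ≤ ‖p (j + m + 1) - p (j + m)‖ ^ 2 :=
          pow_le_pow_left₀ (norm_nonneg _) h2 2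
        rw [← add_assoc]
        push_cast
        linarith
    by_contra hne
    have hpos : 0 < ‖p (j + 1) - p j‖ ^ 2 := by
      have : p (j + 1) - p j ≠ 0 := sub_ne_zero.2 hne
      positivity
    obtain ⟨m, hm'⟩ := exists_nat_gt (‖ξ - p j‖ ^ 2 / ‖p (j + 1) - p j‖ ^ 2)
    rw [div_lt_iff₀ hpos] at hm'
    have := hb m
    nlinarith [sq_nonneg ‖ξ - p (j + m)‖]
  have hall : ∀ k, p k = p 0 := by
    intro k
    induction k with
    | zero => rfl
    | succ k ih => rw [hzero, ih]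
  have hξ0 : ξ ∈ (K 0)ᗮ := by
    simp only [K]
    rw [Submodule.orthogonal_closure, Submodule.mem_orthogonal]
    rintro _ ⟨y, hy, rfl⟩
    obtain ⟨c, rfl⟩ := h0 y hy
    change ⟪c • Ω, ξ⟫_ℂ = 0
    rw [inner_smul_left, horth, mul_zero]
  have hp0 : p 0 = 0 := by
    have h1 : p 0 ∈ (K 0)ᗮ := by
      have : p 0 = ξ - (ξ - p 0) := by abel
      rw [this]
      exact sub_mem hξ0 (hq 0)
    exact inner_self_eq_zero.1 ((Submodule.mem_orthogonal _ _).1 h1 _ (hpK 0))
  have hfin : ∀ ζ, ⟪ζ, ξ⟫_ℂ = 0 := by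
    intro ζ
    refine h.ind (fun ζ => ⟪ζ, ξ⟫_ℂ = 0) ζ ?_ (isClosed_eq (by fun_prop) (by fun_prop))
    rintro _ ⟨y, hy, rfl⟩
    obtain ⟨k, hk⟩ := hcov y hy
    have h1 := hq k
    rw [hall k, hp0, sub_zero] at h1
    exact (Submodule.mem_orthogonal _ _).1 h1 _
      (Submodule.le_topologicalClosure _ ⟨y, hk, rfl⟩)
  exact inner_self_eq_zero.1 (hfin ξ)

end Tr

end Pool.Agent.Lib.MP_862c25_an
end

-- part Pool.Agent.Lib.MP_862c25_an.Main
section

open scoped InnerProductSpace Matrix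

namespace Pool.Agent.Lib.MP_862c25_an

variable {H : Type*} [NormedAddCommGroup H] [InnerProductSpace ℂ H] [CompleteSpace H]

lemma subset_vnGen (S : Set (H →L[ℂ] H)) {x : H →L[ℂ] H} (hx : x ∈ S) : x ∈ vnGen S := by
  have h1 : x ∈ StarAlgebra.adjoin ℂ S := StarAlgebra.subset_adjoin ℂ S hx
  exact StarAlgebra.adjoin_le_centralizer_centralizer ℂ S h1

lemma vnGen_mono {S T : Set (H →L[ℂ] H)} (h : S ⊆ T) {x : H →L[ℂ] H} (hx : x ∈ vnGen S) :
    x ∈ vnGen T :=
  StarSubalgebra.centralizer_le ℂ _ _ (StarSubalgebra.centralizer_le ℂ _ _ h) hx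

lemma tower_succ_le (S₀ S₁ : Set (H →L[ℂ] H)) (e : ℕ → (H →L[ℂ] H)) (h : S₀ ⊆ S₁) (k : ℕ) :
    tower S₀ S₁ e k ≤ tower S₀ S₁ e (k + 1) := by
  cases k with
  | zero => exact StarAlgebra.adjoin_mono h
  | succ k => exact fun x hx => StarAlgebra.subset_adjoin ℂ _ (Or.inl hx)

lemma e_mem_tower (S₀ S₁ : Set (H →L[ℂ] H)) (e : ℕ → (H →L[ℂ] H)) (k : ℕ) :
    e k ∈ tower S₀ S₁ e (k + 2) :=
  StarAlgebra.subset_adjoin ℂ _ (Or.inr rfl)

lemma tower_le_tower {S₀ S₁ T₀ T₁ : Set (H →L[ℂ] H)} (e : ℕ → (H →L[ℂ] H)) (h₀ : S₀ ⊆ T₀)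
    (h₁ : S₁ ⊆ T₁) : ∀ k, tower S₀ S₁ e k ≤ tower T₀ T₁ e k
  | 0 => StarAlgebra.adjoin_mono h₀
  | 1 => StarAlgebra.adjoin_mono h₁
  | k + 2 => StarAlgebra.adjoin_mono
      (Set.union_subset_union_left _ (tower_le_tower e h₀ h₁ (k + 1)))

/-- the union of an increasing sequence of star algebras -/
def unionAlg (A : ℕ → StarSubalgebra ℂ (H →L[ℂ] H)) (hA : Monotone A) :
    StarSubalgebra ℂ (H →L[ℂ] H) where
  carrier := ⋃ k, (A k : Set (H →L[ℂ] H))
  mul_mem' := by
    intro a b ha hb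
    obtain ⟨i, hi⟩ := Set.mem_iUnion.1 ha
    obtain ⟨j, hj⟩ := Set.mem_iUnion.1 hb
    exact Set.mem_iUnion.2 ⟨max i j,
      mul_mem (hA (le_max_left i j) hi) (hA (le_max_right i j) hj)⟩
  add_mem' := by
    intro a b ha hb
    obtain ⟨i, hi⟩ := Set.mem_iUnion.1 ha
    obtain ⟨j, hj⟩ := Set.mem_iUnion.1 hb
    exact Set.mem_iUnion.2 ⟨max i j,
      add_mem (hA (le_max_left i j) hi) (hA (le_max_right i j) hj)⟩
  algebraMap_mem' := fun c => Set.mem_iUnion.2 ⟨0, algebraMap_mem (A 0) c⟩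
  star_mem' := by
    intro a ha
    obtain ⟨i, hi⟩ := Set.mem_iUnion.1 ha
    exact Set.mem_iUnion.2 ⟨i, star_mem (s := A i) hi⟩

/-- the projection onto the constant vector -/
noncomputable def flat : M4 := Matrix.of fun _ _ => (1 / 4 : ℂ)

lemma flat_mem (z : ℂ) : flat ∈ conjDiag (hadamard z) := by
  have hcol : ∀ i, hadamard z i 0 = 1 / 2 := by
    intro i
    fin_cases i <;> simp [hadamard]
  refine ⟨fun k => if k = 0 then 1 else 0, ?_⟩
  ext i j
  rw [Matrix.mul_apply, Finset.sum_eq_single 0]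
  · rw [Matrix.mul_diagonal, Matrix.conjTranspose_apply, hcol, hcol]
    simp [flat]
    norm_num
  · intro k _ hk
    rw [Matrix.mul_diagonal]
    simp [hk]
  · simp

lemma flat_diag_flat (d : Fin 4 → ℂ) :
    flat * Matrix.diagonal d * flat = ((∑ i, d i) / 4) • flat := by
  ext i j
  simp [flat, Matrix.mul_apply, Fin.sum_univ_four, Matrix.diagonal]
  ring

lemma flat_proj : IsStarProjection flat := by
  constructor
  · ext i j
    simp [flat, Matrix.mul_apply]
  · ext i j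
    simp [flat]

lemma mem_level_zero (π : M4 →⋆ₐ[ℂ] (H →L[ℂ] H)) {x : H →L[ℂ] H}
    (hx : x ∈ StarAlgebra.adjoin ℂ (π '' conjDiag 1)) : ∃ d, x = π (Matrix.diagonal d) := by
  induction hx using StarAlgebra.adjoin_induction with
  | mem x hx =>
    obtain ⟨_, ⟨d, rfl⟩, rfl⟩ := hx
    exact ⟨d, by simp⟩
  | algebraMap c =>
    refine ⟨fun _ => c, ?_⟩
    rw [← AlgHomClass.commutes π c]
    rfl
  | add x y _ _ hx hy =>
    obtain ⟨d, rfl⟩ := hx
    obtain ⟨d', rfl⟩ := hy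
    exact ⟨d + d', by rw [← map_add, Matrix.diagonal_add]; rfl⟩
  | mul x y _ _ hx hy =>
    obtain ⟨d, rfl⟩ := hx
    obtain ⟨d', rfl⟩ := hy
    exact ⟨fun i => d i * d' i, by rw [← map_mul, Matrix.diagonal_mul_diagonal]⟩
  | star x _ hx =>
    obtain ⟨d, rfl⟩ := hx
    exact ⟨star d, by rw [← map_star, Matrix.star_eq_conjTranspose, Matrix.diagonal_conjTranspose]⟩

namespace JonesTower

/-- The commutant in `R` of the flat projection and the Jones projections is trivial. -/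
theorem scalar (T : JonesTower H) {x : H →L[ℂ] H} (hx : x ∈ T.R)
    (h0 : T.π flat * x = x * T.π flat) (hc : ∀ k, T.e k * x = x * T.e k) :
    ∃ c : ℂ, x = c • 1 := by
  set A := tower (T.π '' conjDiag 1) (Set.range T.π) T.e with hA
  have hsucc : ∀ k, A k ≤ A (k + 1) := tower_succ_le _ _ _ (Set.image_subset_range _ _)
  have hmono : Monotone A := monotone_nat_of_le_succ hsucc
  have htr : Tr (unionAlg A hmono) T.Ω := by
    constructor
    · intro a ha b hb
      obtain ⟨i, hi⟩ := Set.mem_iUnion.1 ha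
      obtain ⟨j, hj⟩ := Set.mem_iUnion.1 hb
      exact T.tracial (max i j) a (hmono (le_max_left i j) hi) b (hmono (le_max_right i j) hj)
    · refine T.cyclic.mono ?_
      rintro _ ⟨k, y, hy, rfl⟩
      exact ⟨y, Set.mem_iUnion.2 ⟨k, hy⟩, rfl⟩
  have hΩ : ⟪T.Ω, T.Ω⟫_ℂ = 1 := by
    have := T.trace_π 1
    rw [map_one] at this
    simpa using this
  let A' : ℕ → StarSubalgebra ℂ (H →L[ℂ] H) := fun k => match k with
    | 0 => ⊥
    | k + 1 => A k
  let e' : ℕ → (H →L[ℂ] H) := fun k => match k with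
    | 0 => T.π flat
    | k + 1 => T.e k
  refine htr.scalar_of_commute hΩ A' e' ?_ ?_ ?_ ?_ ?_ ?_ ?_ ?_ hx ?_
  · intro y hy
    obtain ⟨c, rfl⟩ := (StarSubalgebra.mem_bot (R := ℂ)).1 hy
    exact ⟨c, Algebra.algebraMap_eq_smul_one c⟩
  · rintro (_ | k)
    · exact bot_le
    · exact hsucc k
  · rintro (_ | k)
    · exact bot_le
    · exact fun y hy => Set.mem_iUnion.2 ⟨k, hy⟩
  · intro y hy
    obtain ⟨k, hk⟩ := Set.mem_iUnion.1 hy
    exact ⟨k + 1, hk⟩
  · rintro (_ | k)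
    · exact StarAlgebra.subset_adjoin ℂ _ ⟨flat, rfl⟩
    · exact e_mem_tower _ _ _ k
  · rintro (_ | k)
    · exact flat_proj.map T.π
    · exact T.proj k
  · rintro (_ | k) y hy
    · obtain ⟨d, rfl⟩ := mem_level_zero T.π hy
      refine ⟨((∑ i, d i) / 4) • 1, SMulMemClass.smul_mem _ (one_mem _), ?_⟩
      change T.π flat * T.π (Matrix.diagonal d) * T.π flat = _ * T.π flat
      rw [← map_mul, ← map_mul, flat_diag_flat, map_smul, smul_mul_assoc, one_mul]
    · obtain ⟨w, hw, -, hw'⟩ := T.jones k y hy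
      exact ⟨w, hw, hw'⟩
  · rintro (_ | k) y hy
    · obtain ⟨d, rfl⟩ := mem_level_zero T.π hy
      change ⟪T.Ω, (T.π (Matrix.diagonal d) * T.π flat) T.Ω⟫_ℂ = _
      rw [← map_mul, T.trace_π, T.trace_π]
      simp [flat, Matrix.trace, Matrix.mul_apply, Fin.sum_univ_four, Matrix.diagonal]
      ring
    · exact T.markov k y hy
  · rintro (_ | k)
    · exact h0
    · exact hc k

lemma flat_mem_spin (T : JonesTower H) (z : ℂ) : T.π flat ∈ T.spin (hadamard z) :=
  subset_vnGen _ (Set.mem_iUnion.2 ⟨1, StarAlgebra.subset_adjoin ℂ _ ⟨flat, flat_mem z, rfl⟩⟩)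

lemma e_mem_spin (T : JonesTower H) (u : M4) (k : ℕ) : T.e k ∈ T.spin u :=
  subset_vnGen _ (Set.mem_iUnion.2 ⟨k + 2, e_mem_tower _ _ _ k⟩)

lemma spin_le (T : JonesTower H) (u : M4) {x : H →L[ℂ] H} (hx : x ∈ T.spin u) : x ∈ T.R :=
  vnGen_mono (Set.iUnion_mono fun k =>
    tower_le_tower T.e (Set.empty_subset _) (Set.image_subset_range _ _) k) hx

theorem irreducible (T : JonesTower H) (a b : ℂ) {x : H →L[ℂ] H} (hx : x ∈ T.R)
    (hc : x ∈ (vnInter (T.spin (hadamard a)) (T.spin (hadamard b))).commutant) :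
    ∃ c : ℂ, x = c • 1 := by
  rw [VonNeumannAlgebra.mem_commutant_iff] at hc
  exact T.scalar hx (hc _ ⟨T.flat_mem_spin a, T.flat_mem_spin b⟩)
    fun k => hc _ ⟨T.e_mem_spin _ k, T.e_mem_spin _ k⟩

theorem isFactor (T : JonesTower H) (a b : ℂ) :
    IsFactor (vnInter (T.spin (hadamard a)) (T.spin (hadamard b))) :=
  fun _ hx hc => T.irreducible a b (T.spin_le _ hx.1) hc

end JonesTower

end Pool.Agent.Lib.MP_862c25_an
end

-- part Pool.Agent.Lib.MP_862c25_an.Pauli
section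

open scoped InnerProductSpace Matrix

namespace Pool.Agent.Lib.MP_862c25_an

/-- index group of Pauli strings -/
abbrev G : Type := (ℕ × Bool) →₀ ZMod 2

/-- the Hilbert space of the model -/
abbrev HH : Type := lp (fun _ : G => ℂ) 2

/-- sign character -/
noncomputable def chi (a : ZMod 2) : ℂ := if a = 0 then 1 else -1

lemma chi_zero : chi 0 = 1 := by simp [chi]

lemma chi_one : chi 1 = -1 := by simp [chi]

lemma zmod2 (a : ZMod 2) : a = 0 ∨ a = 1 := by
  revert a; decide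

lemma chi_add (a b : ZMod 2) : chi (a + b) = chi a * chi b := by
  have h11 : (1 : ZMod 2) + 1 = 0 := by decide
  rcases zmod2 a with rfl | rfl <;> rcases zmod2 b with rfl | rfl <;>
    simp [chi_zero, chi_one, h11]

lemma chi_sq (a : ZMod 2) : chi a * chi a = 1 := by
  rcases zmod2 a with rfl | rfl <;> simp [chi_zero, chi_one]

lemma chi_star (a : ZMod 2) : (starRingEnd ℂ) (chi a) = chi a := by
  rcases zmod2 a with rfl | rfl <;> simp [chi_zero, chi_one]

/-- the bilinear form -/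
noncomputable def B (g h : G) : ZMod 2 := h.sum fun i a => g (i.1 + 1, i.2) * a

lemma B_add_left (g g' h : G) : B (g + g') h = B g h + B g' h := by
  simp [B, add_mul, Finsupp.sum_add]

lemma B_add_right (g h h' : G) : B g (h + h') = B g h + B g h' := by
  unfold B
  rw [Finsupp.sum_add_index'] <;> simp [mul_add]

lemma B_zero_left (h : G) : B 0 h = 0 := by simp [B]

lemma B_zero_right (g : G) : B g 0 = 0 := by simp [B]

/-- generators -/
noncomputable def s (i : ℕ × Bool) : G := Finsupp.single i 1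

lemma B_s_right (g : G) (i : ℕ × Bool) : B g (s i) = g (i.1 + 1, i.2) := by
  simp [B, s]

lemma B_s_left_succ (j : ℕ) (c : Bool) (h : G) : B (s (j + 1, c)) h = h (j, c) := by
  unfold B
  rw [Finsupp.sum_eq_single (j, c)]
  · simp [s]
  · rintro ⟨j', c'⟩ _ hne
    have : (j + 1, c) ≠ (j' + 1, c') := by
      intro h
      apply hne
      simp only [Prod.mk.injEq] at h ⊢
      exact ⟨by omega, h.2.symm⟩
    simp [s, Finsupp.single_eq_of_ne' this]
  · simp

lemma B_s_left_zero (c : Bool) (h : G) : B (s (0, c)) h = 0 := by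
  unfold B
  refine Finset.sum_eq_zero fun i _ => ?_
  have : ((0 : ℕ), c) ≠ (i.1 + 1, i.2) := by simp
  simp [s, Finsupp.single_eq_of_ne' this]

lemma G_add_self (g : G) : g + g = 0 := by
  ext i
  simp only [Finsupp.add_apply, Finsupp.zero_apply]
  exact CharTwo.add_self_eq_zero _

lemma G_add_eq_zero {g h : G} : g + h = 0 ↔ g = h := by
  constructor
  · intro hh
    have : g + h + h = h := by rw [hh, zero_add]
    rwa [add_assoc, G_add_self, add_zero] at this
  · rintro rfl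
    exact G_add_self _

/-- the standard basis -/
noncomputable def bas : HilbertBasis G ℂ HH := default

lemma ext_bas {S T : HH →L[ℂ] HH} (h : ∀ g, S (bas g) = T (bas g)) : S = T := by
  refine ContinuousLinearMap.ext_on (s := Set.range bas) ?_ ?_
  · rw [← Submodule.dense_iff_topologicalClosure_eq_top.symm]
    exact bas.dense_span
  · rintro _ ⟨g, rfl⟩
    exact h g

open Classical in
lemma inner_bas (g h : G) : ⟪bas g, bas h⟫_ℂ = if g = h then 1 else 0 :=
  orthonormal_iff_ite.1 bas.orthonormal g h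

lemma twisted_orthonormal (g : G) :
    Orthonormal ℂ fun h : G => chi (B g h) • bas (g + h) := by
  classical
  rw [orthonormal_iff_ite]
  intro h k
  rw [inner_smul_left, inner_smul_right, inner_bas, chi_star]
  by_cases hk : h = k
  · subst hk
    simp [chi_sq]
  · simp [hk]

lemma twisted_span (g : G) :
    ⊤ ≤ (Submodule.span ℂ (Set.range fun h : G => chi (B g h) • bas (g + h))).topologicalClosure := by
  rw [← bas.dense_span]
  refine Submodule.topologicalClosure_mono (Submodule.span_le.2 ?_)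
  rintro _ ⟨k, rfl⟩
  have : bas k = chi (B g (g + k)) • (chi (B g (g + k)) • bas (g + (g + k))) := by
    rw [smul_smul, chi_sq, one_smul, ← add_assoc, G_add_self, zero_add]
  rw [this]
  exact Submodule.smul_mem _ _ (Submodule.subset_span ⟨g + k, rfl⟩)

/-- Pauli string operators -/
noncomputable def W (g : G) : HH →L[ℂ] HH :=
  (bas.repr.trans (HilbertBasis.mk (twisted_orthonormal g) (twisted_span g)).repr.symm
    ).toContinuousLinearEquiv.toContinuousLinearMap

lemma W_bas (g h : G) : W g (bas h) = chi (B g h) • bas (g + h) := by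
  classical
  change (HilbertBasis.mk (twisted_orthonormal g) (twisted_span g)).repr.symm (bas.repr (bas h)) = _
  rw [HilbertBasis.repr_self, HilbertBasis.repr_symm_single, HilbertBasis.coe_mk]

lemma W_inner (g : G) (ξ η : HH) : ⟪W g ξ, W g η⟫_ℂ = ⟪ξ, η⟫_ℂ :=
  LinearIsometryEquiv.inner_map_map _ ξ η

lemma W_zero : W 0 = 1 := by
  refine ext_bas fun h => ?_
  rw [W_bas, B_zero_left, chi_zero, one_smul, zero_add]
  rfl

lemma W_mul (g h : G) : W g * W h = chi (B g h) • W (g + h) := by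
  refine ext_bas fun k => ?_
  change W g (W h (bas k)) = chi (B g h) • W (g + h) (bas k)
  rw [W_bas, map_smul, W_bas, W_bas, smul_smul, smul_smul, B_add_left, B_add_right, chi_add,
    chi_add, add_assoc]
  congr 1
  ring

lemma W_add (g h : G) : W (g + h) = chi (B g h) • (W g * W h) := by
  rw [W_mul, smul_smul, chi_sq, one_smul]

lemma W_star (g : G) : star (W g) = chi (B g g) • W g := by
  have h1 : star (W g) * W g = 1 := by
    ext1 ξ
    refine ext_inner_left ℂ fun η => ?_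
    change ⟪η, (star (W g)) (W g ξ)⟫_ℂ = ⟪η, ξ⟫_ℂ
    rw [ContinuousLinearMap.star_eq_adjoint, ContinuousLinearMap.adjoint_inner_right, W_inner]
  have h2 : W g * (chi (B g g) • W g) = 1 := by
    rw [mul_smul_comm, W_mul, smul_smul, chi_sq, one_smul, G_add_self, W_zero]
  calc star (W g) = star (W g) * (W g * (chi (B g g) • W g)) := by rw [h2, mul_one]
    _ = _ := by rw [← mul_assoc, h1, one_mul]

lemma W_comm (g h : G) : W g * W h = chi (B g h + B h g) • (W h * W g) := by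
  rw [W_mul, W_mul, smul_smul, chi_add, mul_assoc, chi_sq, mul_one, add_comm]

lemma B_s_s (i : ℕ × Bool) : B (s i) (s i) = 0 := by
  rw [B_s_right]
  have : i ≠ (i.1 + 1, i.2) := by
    intro h
    have := congrArg Prod.fst h
    simp at this
  simp [s, Finsupp.single_eq_of_ne' this]

lemma W_s_sq (i : ℕ × Bool) : W (s i) * W (s i) = 1 := by
  rw [W_mul, B_s_s, chi_zero, one_smul, G_add_self, W_zero]

lemma W_s_star (i : ℕ × Bool) : star (W (s i)) = W (s i) := by
  rw [W_star, B_s_s, chi_zero, one_smul]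

/-- the vector state -/
noncomputable def tau : (HH →L[ℂ] HH) →ₗ[ℂ] ℂ where
  toFun x := ⟪bas 0, x (bas 0)⟫_ℂ
  map_add' x y := by simp
  map_smul' c x := by simp

open Classical in
lemma tau_W (g : G) : tau (W g) = if g = 0 then 1 else 0 := by
  change ⟪bas 0, W g (bas 0)⟫_ℂ = _
  rw [W_bas, B_zero_right, chi_zero, one_smul, add_zero, inner_bas]
  simp only [eq_comm]

/-- strings supported on levels at most `k` -/
def V (k : ℕ) : Set G := {g | ∀ i : ℕ × Bool, k < i.1 → g i = 0}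

lemma V_add {k : ℕ} {g h : G} (hg : g ∈ V k) (hh : h ∈ V k) : g + h ∈ V k := by
  intro i hi
  simp [hg i hi, hh i hi]

lemma V_zero (k : ℕ) : (0 : G) ∈ V k := fun _ _ => rfl

lemma V_mono {k l : ℕ} (h : k ≤ l) {g : G} (hg : g ∈ V k) : g ∈ V l :=
  fun i hi => hg i (lt_of_le_of_lt h hi)

lemma s_mem_V {k : ℕ} {i : ℕ × Bool} (h : i.1 ≤ k) : s i ∈ V k := by
  intro j hj
  have : i ≠ j := by
    rintro rfl
    omega
  simp [s, Finsupp.single_eq_of_ne' this]

/-- the algebra spanned by the strings supported on levels at most `k` -/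
noncomputable def TT (k : ℕ) : StarSubalgebra ℂ (HH →L[ℂ] HH) where
  carrier := Submodule.span ℂ (W '' V k)
  mul_mem' := by
    intro a b ha hb
    induction ha using Submodule.span_induction with
    | mem x hx =>
      obtain ⟨g, hg, rfl⟩ := hx
      induction hb using Submodule.span_induction with
      | mem y hy =>
        obtain ⟨h, hh, rfl⟩ := hy
        rw [W_mul]
        exact Submodule.smul_mem _ _ (Submodule.subset_span ⟨_, V_add hg hh, rfl⟩)
      | zero => simp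
      | add y z _ _ hy hz => rw [mul_add]; exact add_mem hy hz
      | smul c y _ hy => rw [mul_smul_comm]; exact Submodule.smul_mem _ _ hy
    | zero => simp
    | add x y _ _ hx hy => rw [add_mul]; exact add_mem hx hy
    | smul c x _ hx => rw [smul_mul_assoc]; exact Submodule.smul_mem _ _ hx
  add_mem' := fun ha hb => Submodule.add_mem _ ha hb
  algebraMap_mem' := by
    intro c
    rw [Algebra.algebraMap_eq_smul_one, ← W_zero]
    exact Submodule.smul_mem _ _ (Submodule.subset_span ⟨_, V_zero k, rfl⟩)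
  star_mem' := by
    intro a ha
    induction ha using Submodule.span_induction with
    | mem x hx =>
      obtain ⟨g, hg, rfl⟩ := hx
      rw [W_star]
      exact Submodule.smul_mem _ _ (Submodule.subset_span ⟨_, hg, rfl⟩)
    | zero => simp
    | add x y _ _ hx hy => rw [star_add]; exact add_mem hx hy
    | smul c x _ hx => rw [star_smul]; exact Submodule.smul_mem _ _ hx

lemma W_mem_TT {k : ℕ} {g : G} (hg : g ∈ V k) : W g ∈ TT k :=
  Submodule.subset_span ⟨g, hg, rfl⟩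

lemma TT_ind {k : ℕ} (p : (HH →L[ℂ] HH) → Prop) (h1 : ∀ g ∈ V k, p (W g)) (h0 : p 0)
    (h2 : ∀ x y, p x → p y → p (x + y)) (h3 : ∀ (c : ℂ) x, p x → p (c • x))
    {x : HH →L[ℂ] HH} (hx : x ∈ TT k) : p x := by
  have hx' : x ∈ Submodule.span ℂ (W '' V k) := hx
  clear hx
  induction hx' using Submodule.span_induction with
  | mem x hx =>
    obtain ⟨g, hg, rfl⟩ := hx
    exact h1 g hg
  | zero => exact h0
  | add x y _ _ hx hy => exact h2 x y hx hy
  | smul c x _ hx => exact h3 c x hx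

lemma TT_mono {k l : ℕ} (h : k ≤ l) : TT k ≤ TT l :=
  fun _ hx => Submodule.span_mono (Set.image_mono fun _ hg => V_mono h hg) hx

lemma TT_le {k : ℕ} (C : StarSubalgebra ℂ (HH →L[ℂ] HH))
    (h : ∀ i : ℕ × Bool, i.1 ≤ k → W (s i) ∈ C) : TT k ≤ C := by
  intro x hx
  refine TT_ind (fun x => x ∈ C) ?_ (zero_mem _) (fun _ _ => add_mem)
    (fun c _ hx => SMulMemClass.smul_mem c hx) hx
  intro g hg
  have key : ∀ F : Finset (ℕ × Bool), (∀ i ∈ F, i.1 ≤ k) →
      W (∑ i ∈ F, Finsupp.single i (g i)) ∈ C := by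
    intro F
    induction F using Finset.induction_on with
    | empty => intro _; rw [Finset.sum_empty, W_zero]; exact one_mem _
    | insert i F hi ih =>
      intro hF
      rw [Finset.sum_insert hi, W_add]
      refine SMulMemClass.smul_mem _ (mul_mem ?_ (ih fun j hj => hF j (Finset.mem_insert_of_mem hj)))
      rcases zmod2 (g i) with h0 | h1
      · rw [h0, Finsupp.single_zero, W_zero]; exact one_mem _
      · rw [h1]; exact h i (hF i (Finset.mem_insert_self _ _))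
  have h2 := key g.support fun i hi => by
    by_contra hlt
    exact (Finsupp.mem_support_iff.1 hi) (hg i (not_le.1 hlt))
  have h3 : ∑ i ∈ g.support, Finsupp.single i (g i) = g := Finsupp.sum_single g
  rwa [h3] at h2

lemma tau_tracial {k : ℕ} {x y : HH →L[ℂ] HH} (hx : x ∈ TT k) (hy : y ∈ TT k) :
    tau (x * y) = tau (y * x) := by
  refine TT_ind (fun x => tau (x * y) = tau (y * x)) ?_ (by simp) ?_ ?_ hx
  · intro g _
    refine TT_ind (fun y => tau (W g * y) = tau (y * W g)) ?_ (by simp) ?_ ?_ hy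
    · intro h _
      rw [W_mul, W_mul, map_smul, map_smul, tau_W, tau_W, add_comm h g]
      by_cases hgh : g + h = 0
      · obtain rfl := G_add_eq_zero.1 hgh
        rfl
      · simp [hgh]
    · intro a b ha hb
      simp only [mul_add, add_mul, map_add, ha, hb]
    · intro c a ha
      simp only [mul_smul_comm, smul_mul_assoc, map_smul, ha]
  · intro a b ha hb
    simp only [mul_add, add_mul, map_add, ha, hb]
  · intro c a ha
    simp only [mul_smul_comm, smul_mul_assoc, map_smul, ha]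

end Pool.Agent.Lib.MP_862c25_an
end

-- part Pool.Agent.Lib.MP_862c25_an.Model
section

open scoped InnerProductSpace Matrix

namespace Pool.Agent.Lib.MP_862c25_an

/-- the Jones projections of the model -/
noncomputable def ee (k : ℕ) : HH →L[ℂ] HH :=
  (1 / 4 : ℂ) • ((1 + W (s (k + 2, false))) * (1 + W (s (k + 2, true))))

lemma s_apply (i j : ℕ × Bool) : s i j = if i = j then 1 else 0 := by
  simp [s, Finsupp.single_apply]

lemma W_comm_s {k : ℕ} {g : G} (hg : g ∈ V (k + 2)) (c : Bool) :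
    W (s (k + 2, c)) * W g = chi (g (k + 1, c)) • (W g * W (s (k + 2, c))) := by
  rw [W_comm, B_s_left_succ, B_s_right, hg (k + 2 + 1, c) (by simp), add_zero]

lemma ab_comm (k : ℕ) (c c' : Bool) :
    W (s (k + 2, c)) * W (s (k + 2, c')) = W (s (k + 2, c')) * W (s (k + 2, c)) := by
  rw [W_comm_s (s_mem_V le_rfl), s_apply]
  simp [chi_zero]

lemma ee_eq' (k : ℕ) :
    ee k = (1 / 4 : ℂ) • ((1 + W (s (k + 2, true))) * (1 + W (s (k + 2, false)))) := by
  simp only [ee, mul_add, add_mul, mul_one, one_mul, ab_comm k false true]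
  congr 1
  abel

lemma one_add_sq {A : Type*} [Ring A] {a : A} (ha : a * a = 1) :
    (1 + a) * (1 + a) = (1 + a) + (1 + a) := by
  simp only [mul_add, add_mul, mul_one, one_mul, ha]
  abel

lemma ee_proj (k : ℕ) : IsStarProjection (ee k) := by
  constructor
  · change ee k * ee k = ee k
    nth_rewrite 2 [ee_eq' k]
    simp only [ee]
    set a := W (s (k + 2, false))
    set b := W (s (k + 2, true))
    have ha : a * a = 1 := W_s_sq _
    have hb : b * b = 1 := W_s_sq _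
    have hab : a * b = b * a := ab_comm k false true
    have h1 : (1 + b) * (1 + a) = (1 + a) * (1 + b) := by
      simp only [mul_add, add_mul, mul_one, one_mul, hab]; abel
    have h2 : (1 + a) * (1 + b) * ((1 + b) * (1 + a)) = (4 : ℂ) • ((1 + a) * (1 + b)) := by
      calc (1 + a) * (1 + b) * ((1 + b) * (1 + a))
          = (1 + a) * ((1 + b) * (1 + b)) * (1 + a) := by noncomm_ring
        _ = (1 + a) * ((1 + b) * (1 + a)) + (1 + a) * ((1 + b) * (1 + a)) := by
          rw [one_add_sq hb]; noncomm_ring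
        _ = ((1 + a) * (1 + a)) * (1 + b) + ((1 + a) * (1 + a)) * (1 + b) := by
          rw [h1]; noncomm_ring
        _ = _ := by rw [one_add_sq ha, add_mul]; module
    rw [smul_mul_assoc, mul_smul_comm, h2, smul_smul, smul_smul]
    norm_num
  · change star (ee k) = ee k
    nth_rewrite 2 [ee_eq' k]
    simp [ee, W_s_star]

lemma ee_mem (k : ℕ) : ee k ∈ TT (k + 2) :=
  SMulMemClass.smul_mem _ (mul_mem (add_mem (one_mem _) (W_mem_TT (s_mem_V le_rfl)))
    (add_mem (one_mem _) (W_mem_TT (s_mem_V le_rfl))))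

lemma ee_comm_W {k : ℕ} {g : G} (hg : g ∈ V k) : ee k * W g = W g * ee k := by
  have h : ∀ c, W (s (k + 2, c)) * W g = W g * W (s (k + 2, c)) := by
    intro c
    rw [W_comm_s (V_mono (by omega) hg), hg (k + 1, c) (by simp), chi_zero, one_smul]
  have h1 : ∀ c, Commute (1 + W (s (k + 2, c))) (W g) := fun c =>
    (Commute.one_left _).add_left (h c)
  exact ((h1 false).mul_left (h1 true)).smul_left _

lemma ee_comm {k : ℕ} {y : HH →L[ℂ] HH} (hy : y ∈ TT k) : ee k * y = y * ee k := by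
  refine TT_ind (fun y => ee k * y = y * ee k) (fun g hg => ee_comm_W hg) (by simp) ?_ ?_ hy
  · intro a b ha hb
    simp only [mul_add, add_mul, ha, hb]
  · intro c a ha
    simp only [mul_smul_comm, smul_mul_assoc, ha]

lemma anti_zero {A : Type*} [Ring A] {a w : A} (ha : a * a = 1) (h : a * w = -(w * a)) :
    (1 + a) * w * (1 + a) = 0 := by
  have : a * w * a = -w := by rw [h, neg_mul, mul_assoc, ha, mul_one]
  simp only [mul_add, add_mul, mul_one, one_mul]
  rw [this, h]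
  abel

lemma ee_W_ee {k : ℕ} {g : G} (hg : g ∈ V (k + 1)) (c : Bool) (hc : g (k + 1, c) = 1) :
    ee k * W g * ee k = 0 := by
  have h := W_comm_s (V_mono (by omega) hg : g ∈ V (k + 2)) c
  rw [hc, chi_one, neg_smul, one_smul] at h
  have h0 := anti_zero (W_s_sq _) h
  cases c
  · nth_rewrite 1 [ee_eq' k]
    simp only [ee, smul_mul_assoc, mul_smul_comm]
    have : ∀ a b w : HH →L[ℂ] HH, b * a * w * (a * b) = b * (a * w * a) * b := by
      intros; noncomm_ring
    rw [this, h0]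
    simp
  · nth_rewrite 2 [ee_eq' k]
    simp only [ee, smul_mul_assoc, mul_smul_comm]
    have : ∀ a b w : HH →L[ℂ] HH, b * a * w * (a * b) = b * (a * w * a) * b := by
      intros; noncomm_ring
    rw [this, h0]
    simp

lemma tau_W_mul_W {g h : G} (hne : g ≠ h) : tau (W g * W h) = 0 := by
  rw [W_mul, map_smul, tau_W, if_neg (fun h' => hne (G_add_eq_zero.1 h')), smul_zero]

lemma ee_jones {k : ℕ} {x : HH →L[ℂ] HH} (hx : x ∈ TT (k + 1)) :
    ∃ y ∈ TT k, (∀ z ∈ TT k, tau (z * x) = tau (z * y)) ∧ ee k * x * ee k = y * ee k := by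
  refine TT_ind (fun x => ∃ y ∈ TT k, (∀ z ∈ TT k, tau (z * x) = tau (z * y)) ∧
    ee k * x * ee k = y * ee k) ?_ ⟨0, zero_mem _, by simp, by simp⟩ ?_ ?_ hx
  · intro g hg
    by_cases hk : g ∈ V k
    · refine ⟨W g, W_mem_TT hk, fun _ _ => rfl, ?_⟩
      rw [ee_comm_W hk, mul_assoc, (ee_proj k).isIdempotentElem.eq]
    · have : ∃ c, g (k + 1, c) = 1 := by
        by_contra hcon
        apply hk
        rintro ⟨j, c⟩ hj
        rcases Nat.lt_or_ge (k + 1) j with h | h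
        · exact hg _ h
        · have : j = k + 1 := by simp only at hj; omega
          subst this
          rcases zmod2 (g (k + 1, c)) with h0 | h1
          · exact h0
          · exact absurd ⟨c, h1⟩ hcon
      obtain ⟨c, hc⟩ := this
      refine ⟨0, zero_mem _, ?_, by rw [ee_W_ee hg c hc, zero_mul]⟩
      intro z hz
      rw [mul_zero, map_zero]
      refine TT_ind (fun z => tau (z * W g) = 0) ?_ (by simp) ?_ ?_ hz
      · intro h hh
        exact tau_W_mul_W fun e => hk (e ▸ hh)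
      · intro a b ha hb
        simp only [add_mul, map_add, ha, hb, add_zero]
      · intro c a ha
        simp only [smul_mul_assoc, map_smul, ha, smul_zero]
  · rintro a b ⟨y, hy, hy1, hy2⟩ ⟨y', hy', hy1', hy2'⟩
    refine ⟨y + y', add_mem hy hy', fun z hz => ?_, ?_⟩
    · simp only [mul_add, map_add, hy1 z hz, hy1' z hz]
    · simp only [mul_add, add_mul, hy2, hy2']
  · rintro c a ⟨y, hy, hy1, hy2⟩
    refine ⟨c • y, SMulMemClass.smul_mem _ hy, fun z hz => ?_, ?_⟩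
    · simp only [mul_smul_comm, map_smul, hy1 z hz]
    · simp only [mul_smul_comm, smul_mul_assoc, hy2]

lemma ee_markov {k : ℕ} {x : HH →L[ℂ] HH} (hx : x ∈ TT (k + 1)) :
    tau (x * ee k) = tau x / 4 := by
  refine TT_ind (fun x => tau (x * ee k) = tau x / 4) ?_ (by simp) ?_ ?_ hx
  · intro g hg
    have h1 : ∀ c, tau (W g * W (s (k + 2, c))) = 0 := by
      intro c
      refine tau_W_mul_W fun e => ?_
      have := hg (k + 2, c) (by simp)
      rw [e, s_apply] at this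
      simp at this
    have h2 : tau (W g * (W (s (k + 2, false)) * W (s (k + 2, true)))) = 0 := by
      rw [W_mul, mul_smul_comm, map_smul, tau_W_mul_W, smul_zero]
      intro e
      have := hg (k + 2, false) (by simp)
      rw [e, Finsupp.add_apply, s_apply, s_apply] at this
      simp at this
    simp only [ee, mul_smul_comm, map_smul, mul_add, add_mul, mul_one, one_mul, map_add, h1, h2]
    simp
    ring
  · intro a b ha hb
    simp only [add_mul, map_add, ha, hb]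
    ring
  · intro c a ha
    simp only [smul_mul_assoc, map_smul, ha, smul_eq_mul]
    ring

lemma adjoin_ee (k : ℕ) :
    StarAlgebra.adjoin ℂ ((TT (k + 1) : Set (HH →L[ℂ] HH)) ∪ {ee k}) = TT (k + 2) := by
  apply le_antisymm
  · refine StarAlgebra.adjoin_le ?_
    rintro x (hx | rfl)
    · exact TT_mono (by omega) hx
    · exact ee_mem k
  · set C := StarAlgebra.adjoin ℂ ((TT (k + 1) : Set (HH →L[ℂ] HH)) ∪ {ee k})
    have hT : ∀ g ∈ V (k + 1), W g ∈ C := fun g hg =>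
      StarAlgebra.subset_adjoin ℂ _ (Or.inl (W_mem_TT hg))
    have he : ee k ∈ C := StarAlgebra.subset_adjoin ℂ _ (Or.inr rfl)
    have key : ∀ a b w : HH →L[ℂ] HH, w * w = 1 → a * w = w * a → b * w = -(w * b) →
        a = (2 : ℂ) • ((1 / 4 : ℂ) • ((1 + a) * (1 + b)) +
          w * ((1 / 4 : ℂ) • ((1 + a) * (1 + b))) * w) - 1 := by
      intro a b w hw ha hb
      have h1 : w * ((1 + a) * (1 + b)) * w = (1 + a) * (1 - b) := by
        have e1 : w * a * w = a := by rw [← ha, mul_assoc, hw, mul_one]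
        have e2 : w * b * w = -b := by rw [mul_assoc, hb, mul_neg, ← mul_assoc, hw, one_mul]
        have e3 : w * (a * b) * w = -(a * b) := by
          calc w * (a * b) * w = (w * a) * (b * w) := by noncomm_ring
            _ = -(a * (w * w) * b) := by rw [← ha, hb]; noncomm_ring
            _ = _ := by rw [hw, mul_one]
        simp only [mul_add, add_mul, mul_one, one_mul, mul_sub, hw, e1, e2, e3]
        abel
      rw [mul_smul_comm, smul_mul_assoc, h1]
      simp only [mul_add, add_mul, mul_one, one_mul, mul_sub]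
      module
    refine TT_le C ?_
    rintro ⟨j, c⟩ hj
    rcases Nat.lt_or_ge j (k + 2) with h | h
    · exact hT _ (s_mem_V (by simp only; omega))
    · have : j = k + 2 := by simp only at hj; omega
      subst this
      have hw : W (s (k + 1, !c)) ∈ C := hT _ (s_mem_V le_rfl)
      have hV : s (k + 1, !c) ∈ V (k + 2) := s_mem_V (by simp)
      have ha := W_comm_s hV c
      have hb := W_comm_s hV (!c)
      rw [s_apply, if_neg (by simp), chi_zero, one_smul] at ha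
      rw [s_apply, if_pos rfl, chi_one, neg_smul, one_smul] at hb
      rw [key _ _ _ (W_s_sq _) ha hb]
      have he' : (1 / 4 : ℂ) • ((1 + W (s (k + 2, c))) * (1 + W (s (k + 2, !c)))) ∈ C := by
        cases c
        · exact he
        · have := ee_eq' k
          rw [this] at he
          exact he
      exact sub_mem (SMulMemClass.smul_mem _ (add_mem he' (mul_mem (mul_mem hw he') hw)))
        (one_mem _)

end Pool.Agent.Lib.MP_862c25_an
end

-- part Pool.Agent.Lib.MP_862c25_an.Exists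
section

open scoped InnerProductSpace Matrix

namespace Pool.Agent.Lib.MP_862c25_an

/-- star homomorphism from a system of matrix units -/
noncomputable def ofUnits {A : Type*} [Ring A] [StarRing A] [Algebra ℂ A] [StarModule ℂ A]
    (F : Fin 4 → Fin 4 → A) (hmul : ∀ i j k l, F i j * F k l = if j = k then F i l else 0)
    (hstar : ∀ i j, star (F i j) = F j i) (hone : ∑ i, F i i = 1) : M4 →⋆ₐ[ℂ] A where
  toFun a := ∑ i, ∑ j, a i j • F i j
  map_one' := by
    rw [← hone]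
    refine Finset.sum_congr rfl fun i _ => ?_
    simp [Matrix.one_apply]
  map_mul' a b := by
    rw [Finset.sum_mul]
    refine Finset.sum_congr rfl fun i _ => ?_
    simp only [Matrix.mul_apply, Finset.sum_smul]
    rw [Finset.sum_comm, Finset.sum_mul]
    refine Finset.sum_congr rfl fun j _ => ?_
    symm
    rw [Finset.mul_sum, Finset.sum_eq_single j]
    · rw [Finset.mul_sum]
      refine Finset.sum_congr rfl fun l _ => ?_
      rw [smul_mul_assoc, mul_smul_comm, hmul, if_pos rfl, smul_smul]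
    · intro k _ hk
      rw [Finset.mul_sum]
      refine Finset.sum_eq_zero fun l _ => ?_
      rw [smul_mul_assoc, mul_smul_comm, hmul, if_neg (Ne.symm hk), smul_zero, smul_zero]
    · simp
  map_zero' := by simp
  map_add' a b := by simp [add_smul, Finset.sum_add_distrib]
  commutes' c := by
    rw [Algebra.algebraMap_eq_smul_one, Algebra.algebraMap_eq_smul_one, ← hone, Finset.smul_sum]
    refine Finset.sum_congr rfl fun i _ => ?_
    simp [Matrix.one_apply]
  map_star' a := by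
    simp only [star_sum, star_smul, hstar, Matrix.star_apply]
    rw [Finset.sum_comm]

noncomputable def z0 : HH →L[ℂ] HH := W (s (0, false))
noncomputable def z1 : HH →L[ℂ] HH := W (s (0, true))
noncomputable def x0 : HH →L[ℂ] HH := W (s (1, false))
noncomputable def x1 : HH →L[ℂ] HH := W (s (1, true))

lemma zz (c c' : Bool) : W (s (0, c)) * W (s (0, c')) = W (s (0, c')) * W (s (0, c)) := by
  rw [W_comm, B_s_left_zero, B_s_left_zero, add_zero, chi_zero, one_smul]

lemma xx (c c' : Bool) : W (s (1, c)) * W (s (1, c')) = W (s (1, c')) * W (s (1, c)) := by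
  rw [W_comm, B_s_right, B_s_right, s_apply, s_apply]
  simp [chi_zero]

lemma zx (c c' : Bool) : W (s (0, c)) * W (s (1, c')) =
    chi (if c = c' then 1 else 0) • (W (s (1, c')) * W (s (0, c))) := by
  rw [W_comm, B_s_left_zero, zero_add, B_s_right, s_apply]
  simp [eq_comm]

lemma z0z0 : z0 * z0 = 1 := W_s_sq _
lemma z1z1 : z1 * z1 = 1 := W_s_sq _
lemma x0x0 : x0 * x0 = 1 := W_s_sq _
lemma x1x1 : x1 * x1 = 1 := W_s_sq _
lemma z1z0 : z1 * z0 = z0 * z1 := zz _ _
lemma x1x0 : x1 * x0 = x0 * x1 := xx _ _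
lemma x0z0 : x0 * z0 = -(z0 * x0) := by
  have := zx false false
  simp only [if_true, chi_one, neg_smul, one_smul] at this
  rw [z0, x0, this, neg_neg]
lemma x1z1 : x1 * z1 = -(z1 * x1) := by
  have := zx true true
  simp only [if_true, chi_one, neg_smul, one_smul] at this
  rw [z1, x1, this, neg_neg]
lemma x0z1 : x0 * z1 = z1 * x0 := by
  have := zx true false
  simp only [Bool.true_eq_false, if_false, chi_zero, one_smul] at this
  exact this.symm
lemma x1z0 : x1 * z0 = z0 * x1 := by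
  have := zx false true
  simp only [Bool.false_eq_true, if_false, chi_zero, one_smul] at this
  exact this.symm

lemma z0z0' (y : HH →L[ℂ] HH) : z0 * (z0 * y) = y := by rw [← mul_assoc, z0z0, one_mul]
lemma z1z1' (y : HH →L[ℂ] HH) : z1 * (z1 * y) = y := by rw [← mul_assoc, z1z1, one_mul]
lemma x0x0' (y : HH →L[ℂ] HH) : x0 * (x0 * y) = y := by rw [← mul_assoc, x0x0, one_mul]
lemma x1x1' (y : HH →L[ℂ] HH) : x1 * (x1 * y) = y := by rw [← mul_assoc, x1x1, one_mul]
lemma z1z0' (y : HH →L[ℂ] HH) : z1 * (z0 * y) = z0 * (z1 * y) := by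
  rw [← mul_assoc, z1z0, mul_assoc]
lemma x1x0' (y : HH →L[ℂ] HH) : x1 * (x0 * y) = x0 * (x1 * y) := by
  rw [← mul_assoc, x1x0, mul_assoc]
lemma x0z0' (y : HH →L[ℂ] HH) : x0 * (z0 * y) = -(z0 * (x0 * y)) := by
  rw [← mul_assoc, x0z0, neg_mul, mul_assoc]
lemma x1z1' (y : HH →L[ℂ] HH) : x1 * (z1 * y) = -(z1 * (x1 * y)) := by
  rw [← mul_assoc, x1z1, neg_mul, mul_assoc]
lemma x0z1' (y : HH →L[ℂ] HH) : x0 * (z1 * y) = z1 * (x0 * y) := by
  rw [← mul_assoc, x0z1, mul_assoc]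
lemma x1z0' (y : HH →L[ℂ] HH) : x1 * (z0 * y) = z0 * (x1 * y) := by
  rw [← mul_assoc, x1z0, mul_assoc]

/-- the minimal diagonal projection -/
noncomputable def P0 : HH →L[ℂ] HH := (1 / 4 : ℂ) • ((1 + z0) * (1 + z1))

/-- the shifts -/
noncomputable def XX : Fin 4 → (HH →L[ℂ] HH) := ![1, x0, x1, x0 * x1]

/-- matrix units -/
noncomputable def FF (i j : Fin 4) : HH →L[ℂ] HH := XX i * P0 * XX j

lemma P0_XX (j k : Fin 4) : P0 * (XX j * XX k) * P0 = if j = k then P0 else 0 := by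
  fin_cases j <;> fin_cases k <;>
    simp [XX, P0, mul_add, add_mul, mul_assoc, z0z0, z1z1, x0x0, x1x1, z1z0, x1x0, x0z0, x1z1,
      x0z1, x1z0, z0z0', z1z1', x0x0', z1z0', x1x0', x0z0', x0z1', x1z0'] <;>
    module

lemma FF_mul (i j k l : Fin 4) : FF i j * FF k l = if j = k then FF i l else 0 := by
  have : FF i j * FF k l = XX i * (P0 * (XX j * XX k) * P0) * XX l := by
    simp only [FF, mul_assoc]
  rw [this, P0_XX]
  split_ifs <;> simp [FF]

lemma z0_star : star z0 = z0 := W_s_star _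
lemma z1_star : star z1 = z1 := W_s_star _
lemma x0_star : star x0 = x0 := W_s_star _
lemma x1_star : star x1 = x1 := W_s_star _

lemma XX_star (i : Fin 4) : star (XX i) = XX i := by
  fin_cases i <;> simp [XX, x0_star, x1_star, x1x0]

lemma P0_star : star P0 = P0 := by
  simp [P0, z0_star, z1_star, mul_add, add_mul, z1z0]
  try abel

lemma FF_star (i j : Fin 4) : star (FF i j) = FF j i := by
  simp only [FF, star_mul, XX_star, P0_star, mul_assoc]

lemma FF00 : FF 0 0 = (1 / 4 : ℂ) • (1 + z0 + z1 + z0 * z1) := by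
  simp [FF, XX, P0, mul_add, add_mul]
  abel

lemma FF11 : FF 1 1 = (1 / 4 : ℂ) • (1 - z0 + z1 - z0 * z1) := by
  simp [FF, XX, P0, mul_add, add_mul, mul_assoc, x0x0, x0z0', x0z1']
  module

lemma FF22 : FF 2 2 = (1 / 4 : ℂ) • (1 + z0 - z1 - z0 * z1) := by
  simp [FF, XX, P0, mul_add, add_mul, mul_assoc, x1x1, x1z0', x1z1']
  module

lemma FF33 : FF 3 3 = (1 / 4 : ℂ) • (1 - z0 - z1 + z0 * z1) := by
  simp [FF, XX, P0, mul_add, add_mul, mul_assoc, x1x1, x0x0, x1x0', x0z0', x0z1', x1z0', x1z1']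
  module

lemma FF_one : ∑ i, FF i i = 1 := by
  rw [Fin.sum_univ_four, FF00, FF11, FF22, FF33]
  module

/-- the representation of the matrix algebra -/
noncomputable def piM : M4 →⋆ₐ[ℂ] (HH →L[ℂ] HH) := ofUnits FF FF_mul FF_star FF_one

lemma piM_apply (a : M4) : piM a = ∑ i, ∑ j, a i j • FF i j := rfl

lemma piM_diag (d : Fin 4 → ℂ) : piM (Matrix.diagonal d) = ∑ i, d i • FF i i := by
  rw [piM_apply]
  refine Finset.sum_congr rfl fun i _ => ?_
  simp [Matrix.diagonal_apply]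

lemma piM_single (i j : Fin 4) : piM (Matrix.single i j 1) = FF i j := by
  rw [piM_apply, Finset.sum_eq_single i, Finset.sum_eq_single j]
  · simp
  · intro b _ hb
    simp [hb.symm]
  · simp
  · intro b _ hb
    simp [hb.symm]
  · simp

lemma z0_mem (k : ℕ) : z0 ∈ TT k := W_mem_TT (s_mem_V (Nat.zero_le k))
lemma z1_mem (k : ℕ) : z1 ∈ TT k := W_mem_TT (s_mem_V (Nat.zero_le k))
lemma x0_mem : x0 ∈ TT 1 := W_mem_TT (s_mem_V le_rfl)
lemma x1_mem : x1 ∈ TT 1 := W_mem_TT (s_mem_V le_rfl)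

lemma FF_diag_mem (i : Fin 4) : FF i i ∈ TT 0 := by
  have h0 := z0_mem 0
  have h1 := z1_mem 0
  have h2 := mul_mem h0 h1
  have h3 : (1 : HH →L[ℂ] HH) ∈ TT 0 := one_mem _
  fin_cases i
  · change FF 0 0 ∈ _
    rw [FF00]
    exact SMulMemClass.smul_mem _ (add_mem (add_mem (add_mem h3 h0) h1) h2)
  · change FF 1 1 ∈ _
    rw [FF11]
    exact SMulMemClass.smul_mem _ (sub_mem (add_mem (sub_mem h3 h0) h1) h2)
  · change FF 2 2 ∈ _
    rw [FF22]
    exact SMulMemClass.smul_mem _ (sub_mem (sub_mem (add_mem h3 h0) h1) h2)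
  · change FF 3 3 ∈ _
    rw [FF33]
    exact SMulMemClass.smul_mem _ (add_mem (sub_mem (sub_mem h3 h0) h1) h2)

lemma XX_mem (i : Fin 4) : XX i ∈ TT 1 := by
  fin_cases i
  · exact one_mem _
  · exact x0_mem
  · exact x1_mem
  · exact mul_mem x0_mem x1_mem

lemma FF_mem (i j : Fin 4) : FF i j ∈ TT 1 :=
  mul_mem (mul_mem (XX_mem i) (SMulMemClass.smul_mem _
    (mul_mem (add_mem (one_mem _) (z0_mem 1)) (add_mem (one_mem _) (z1_mem 1))))) (XX_mem j)

lemma z0_eq : z0 = piM (Matrix.diagonal ![1, -1, 1, -1]) := by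
  rw [piM_diag, Fin.sum_univ_four, FF00, FF11, FF22, FF33]
  simp
  module

lemma z1_eq : z1 = piM (Matrix.diagonal ![1, 1, -1, -1]) := by
  rw [piM_diag, Fin.sum_univ_four, FF00, FF11, FF22, FF33]
  simp
  module

lemma level_zero : StarAlgebra.adjoin ℂ (piM '' conjDiag 1) = TT 0 := by
  apply le_antisymm
  · refine StarAlgebra.adjoin_le ?_
    rintro _ ⟨_, ⟨d, rfl⟩, rfl⟩
    simp only [one_mul, Matrix.conjTranspose_one, mul_one, piM_diag]
    exact sum_mem fun i _ => SMulMemClass.smul_mem _ (FF_diag_mem i)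
  · refine TT_le _ ?_
    rintro ⟨j, c⟩ hj
    obtain rfl : j = 0 := by simpa using hj
    cases c
    · exact StarAlgebra.subset_adjoin ℂ _ ⟨_, ⟨![1, -1, 1, -1], by simp⟩, z0_eq.symm⟩
    · exact StarAlgebra.subset_adjoin ℂ _ ⟨_, ⟨![1, 1, -1, -1], by simp⟩, z1_eq.symm⟩

lemma x0_eq : x0 = FF 0 1 + FF 1 0 + FF 2 3 + FF 3 2 := by
  have h : x0 = (∑ i, FF i i) * x0 := by rw [FF_one, one_mul]
  rw [h, Fin.sum_univ_four]
  simp [FF, XX, add_mul, mul_assoc, x0x0, x1x0, x0x0']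

lemma x1_eq : x1 = FF 0 2 + FF 1 3 + FF 2 0 + FF 3 1 := by
  have h : x1 = (∑ i, FF i i) * x1 := by rw [FF_one, one_mul]
  rw [h, Fin.sum_univ_four]
  simp [FF, XX, add_mul, mul_assoc, x1x1]

lemma level_one : StarAlgebra.adjoin ℂ (Set.range piM) = TT 1 := by
  apply le_antisymm
  · refine StarAlgebra.adjoin_le ?_
    rintro _ ⟨a, rfl⟩
    rw [piM_apply]
    exact sum_mem fun i _ => sum_mem fun j _ => SMulMemClass.smul_mem _ (FF_mem i j)
  · have hF : ∀ i j, FF i j ∈ StarAlgebra.adjoin ℂ (Set.range piM) := fun i j =>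
      StarAlgebra.subset_adjoin ℂ _ ⟨_, piM_single i j⟩
    refine TT_le _ ?_
    rintro ⟨j, c⟩ hj
    have hj' : j = 0 ∨ j = 1 := by simp only at hj; omega
    rcases hj' with rfl | rfl <;> cases c
    · exact StarAlgebra.subset_adjoin ℂ _ ⟨_, z0_eq.symm⟩
    · exact StarAlgebra.subset_adjoin ℂ _ ⟨_, z1_eq.symm⟩
    · change x0 ∈ _
      rw [x0_eq]
      exact add_mem (add_mem (add_mem (hF _ _) (hF _ _)) (hF _ _)) (hF _ _)
    · change x1 ∈ _
      rw [x1_eq]
      exact add_mem (add_mem (add_mem (hF _ _) (hF _ _)) (hF _ _)) (hF _ _)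

lemma tower_eq : ∀ k, tower (piM '' conjDiag 1) (Set.range piM) ee k = TT k
  | 0 => level_zero
  | 1 => level_one
  | k + 2 => by
    change StarAlgebra.adjoin ℂ
      ((tower (piM '' conjDiag 1) (Set.range piM) ee (k + 1) : Set (HH →L[ℂ] HH)) ∪ {ee k}) = _
    rw [tower_eq (k + 1), adjoin_ee]

lemma s_ne_zero (i : ℕ × Bool) : s i ≠ 0 := by
  intro h
  have := s_apply i i
  rw [h] at this
  simp at this

lemma tau_P0 : tau P0 = 1 / 4 := by
  have h0 : tau z0 = 0 := by rw [z0, tau_W, if_neg (s_ne_zero _)]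
  have h1 : tau z1 = 0 := by rw [z1, tau_W, if_neg (s_ne_zero _)]
  have h2 : tau (z0 * z1) = 0 := by
    refine tau_W_mul_W fun e => ?_
    have := s_apply (0, false) (0, false)
    rw [e, s_apply] at this
    simp at this
  have h3 : tau 1 = 1 := by rw [← W_zero, tau_W, if_pos rfl]
  simp only [P0, map_smul, mul_add, add_mul, mul_one, one_mul, map_add, h0, h1, h2, h3]
  simp

lemma FF00' : FF 0 0 = P0 := by simp [FF, XX]

lemma tau_FF (i j : Fin 4) : tau (FF i j) = if i = j then 1 / 4 else 0 := by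
  have h1 : FF i j = FF i 0 * FF 0 j := by rw [FF_mul, if_pos rfl]
  rw [h1, tau_tracial (FF_mem _ _) (FF_mem _ _), FF_mul]
  by_cases h : i = j
  · rw [if_pos h.symm, if_pos h, FF00', tau_P0]
  · rw [if_neg (Ne.symm h), if_neg h, map_zero]

/-- The Jones tower exists. -/
noncomputable def model : JonesTower HH where
  π := piM
  e := ee
  Ω := bas 0
  trace_π a := by
    change tau (piM a) = _
    simp only [piM_apply, map_sum, map_smul, tau_FF, smul_eq_mul, mul_ite, mul_zero,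
      Finset.sum_ite_eq, Finset.mem_univ, if_true, Matrix.trace, Matrix.diag, Finset.sum_div]
    refine Finset.sum_congr rfl fun i _ => ?_
    ring
  tracial k x hx y hy := by
    rw [tower_eq] at hx hy
    exact tau_tracial hx hy
  cyclic := by
    have hd : Dense (Submodule.span ℂ (Set.range bas) : Set HH) :=
      Submodule.dense_iff_topologicalClosure_eq_top.2 bas.dense_span
    refine hd.mono ?_
    intro ξ hξ
    simp only [tower_eq]
    induction hξ using Submodule.span_induction with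
    | mem x hx =>
      obtain ⟨g, rfl⟩ := hx
      refine ⟨g.support.sup Prod.fst, W g, W_mem_TT ?_, ?_⟩
      · intro i hi
        by_contra hne
        exact absurd (Finset.le_sup (f := Prod.fst) (Finsupp.mem_support_iff.2 hne)) (not_le.2 hi)
      · rw [W_bas, B_zero_right, chi_zero, one_smul, add_zero]
    | zero => exact ⟨0, 0, zero_mem _, rfl⟩
    | add x y _ _ hx hy =>
      obtain ⟨i, a, ha, rfl⟩ := hx
      obtain ⟨j, b, hb, rfl⟩ := hy
      exact ⟨max i j, a + b, add_mem (TT_mono (le_max_left i j) ha) (TT_mono (le_max_right i j) hb),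
        rfl⟩
    | smul c x _ hx =>
      obtain ⟨i, a, ha, rfl⟩ := hx
      exact ⟨i, c • a, SMulMemClass.smul_mem _ ha, rfl⟩
  proj := ee_proj
  comm k y hy := by
    rw [tower_eq] at hy
    exact ee_comm hy
  jones k x hx := by
    simp only [tower_eq] at hx ⊢
    exact ee_jones hx
  markov k x hx := by
    rw [tower_eq] at hx
    exact ee_markov hx

end Pool.Agent.Lib.MP_862c25_an
end
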